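import Pool.Agent.H81.EX2.Gal
import Pool.Graph.R_pool_sql_team_seeded_3997aac3.Q92.PA.Inert

/-! # An automorphism fixing `ζ`, moving a cube root of two and all the square roots of given prime elements -/

set_option autoImplicit false
set_option linter.unusedSectionVars false
set_option linter.deprecated false

namespace Pool.Agent.H40.IN

open NumberField IsDedekindDomain Pool.Agent.W353.NF Pool.Agent.W401.Cheb
open scoped IntermediateField

section
variable {F : Type} [Field F] [NumberField F]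

/-- an algebraic closure of `F` -/
abbrev Fb (F : Type) [Field F] : Type := AlgebraicClosure F

theorem exists_int' {x : Fb F} {a : 𝓞 F} {n : ℕ} (hn : n ≠ 0) (h : x ^ n = algebraMap F (Fb F) a) :
    ∃ y : 𝓞 (Fb F), (y : Fb F) = x := by
  have h1 : IsIntegral ℤ x := by
    refine IsIntegral.of_pow (n := n) (Nat.pos_of_ne_zero hn) ?_
    rw [h]
    exact a.2.map (algebraMap F (Fb F)).toIntAlgHom
  exact ⟨⟨x, h1⟩, rfl⟩

/-- the elements of a quadratic extension -/
theorem rep (s : Fb F) (n : F) (hs : s ^ 2 = algebraMap F (Fb F) n) (x : Fb F) (hx : x ∈ F⟮s⟯) :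
    ∃ a b : F, x = algebraMap F (Fb F) a + algebraMap F (Fb F) b * s := by
  have hint : IsIntegral F s := Algebra.IsIntegral.isIntegral s
  have h1 : x ∈ Algebra.adjoin F {s} := by
    rw [← IntermediateField.adjoin_simple_toSubalgebra_of_isAlgebraic hint.isAlgebraic]
    exact hx
  refine Algebra.adjoin_induction (p := fun x _ => ∃ a b : F,
    x = algebraMap F (Fb F) a + algebraMap F (Fb F) b * s) ?_ ?_ ?_ ?_ h1
  · rintro _ rfl
    exact ⟨0, 1, by simp⟩
  · intro r
    exact ⟨r, 0, by simp⟩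
  · rintro _ _ _ _ ⟨a, b, rfl⟩ ⟨c, d, rfl⟩
    exact ⟨a + c, b + d, by rw [map_add, map_add]; ring⟩
  · rintro _ _ _ _ ⟨a, b, rfl⟩ ⟨c, d, rfl⟩
    refine ⟨a * c + b * d * n, a * d + b * c, ?_⟩
    simp only [map_add, map_mul, ← hs]
    ring

/-- an integer which is a square times a uniformizer is in the prime ideal -/
theorem mem_of_sq {v : HeightOneSpectrum (𝓞 F)} {β : 𝓞 F} (hβ : v.asIdeal = Ideal.span {β}) {m : 𝓞 F}
    {z : F} (h : (m : F) = z ^ 2 * β) : m ∈ v.asIdeal := by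
  by_contra hm
  have h1 : v.valuation F (m : F) = 1 := (HeightOneSpectrum.valuation_eq_one_iff_notMem v).2 hm
  have h2 : v.valuation F (β : F) = WithZero.exp (-1 : ℤ) := by
    have hβ0 : β ≠ 0 := by
      rintro rfl
      apply v.ne_bot
      rw [hβ]
      simp
    have h3 : v.valuation F (β : F) = v.intValuation β := v.valuation_of_algebraMap β
    rw [h3]
    exact v.intValuation_singleton hβ0 hβ
  rw [h, map_mul, map_pow, h2] at h1
  have hz : v.valuation F z ≠ 0 := by
    intro h3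
    rw [h3, zero_pow two_ne_zero, zero_mul] at h1
    exact zero_ne_one h1
  obtain ⟨k, hk⟩ : ∃ k : ℤ, v.valuation F z = WithZero.exp k := ⟨WithZero.log (v.valuation F z), (WithZero.exp_log hz).symm⟩
  rw [hk, ← WithZero.exp_nsmul, ← WithZero.exp_add, ← WithZero.exp_zero, WithZero.exp_inj] at h1
  simp at h1
  omega

/-- the inertia element which moves the square root of a uniformizer -/
theorem exists_tau (v : HeightOneSpectrum (𝓞 F)) (β : 𝓞 F) (hβ : v.asIdeal = Ideal.span {β})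
    (s : Fb F) (hs : s ^ 2 = algebraMap F (Fb F) β) (Q : Ideal (𝓞 (Fb F))) (hQ : Q.IsMaximal)
    (hQv : Q.comap (algebraMap (𝓞 F) (𝓞 (Fb F))) = v.asIdeal) :
    ∃ τ : Gal(Fb F/F), (∀ x : 𝓞 (Fb F), τ • x - x ∈ Q) ∧ τ s = -s := by
  have hβ0 : β ≠ 0 := by
    rintro rfl
    apply v.ne_bot
    rw [hβ]
    simp
  have hβF : (β : F) ≠ 0 := by
    intro h
    exact hβ0 (RingOfIntegers.ext h)
  have hs0 : s ≠ 0 := by
    rintro rfl
    rw [zero_pow two_ne_zero] at hs
    exact hβF ((algebraMap F (Fb F)).injective (by rw [← hs, map_zero]))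
  have hpm : ∀ g : Gal(Fb F/F), g s = s ∨ g s = -s := by
    intro g
    have h3 : (g s - s) * (g s + s) = 0 := by
      have h4 : g s ^ 2 = s ^ 2 := by rw [← map_pow, hs, AlgEquiv.commutes]
      linear_combination h4
    rcases mul_eq_zero.1 h3 with h4 | h4
    · exact Or.inl (sub_eq_zero.1 h4)
    · exact Or.inr (eq_neg_of_add_eq_zero_left h4)
  obtain ⟨g, hg⟩ : ∃ g : Gal(Fb F/F), g s ≠ s := by
    by_contra hcon
    push Not at hcon
    have h3 : s ∈ (⊥ : IntermediateField F (Fb F)) := by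
      rw [InfiniteGalois.mem_bot_iff_fixed]
      exact hcon
    obtain ⟨z, hz⟩ := IntermediateField.mem_bot.1 h3
    have h5 : (z : F) ^ 2 = β := by
      apply (algebraMap F (Fb F)).injective
      rw [map_pow, hz, hs]
    have hz0 : z ≠ 0 := by
      rintro rfl
      rw [map_zero] at hz
      exact hs0 hz.symm
    have h4 : ((1 : 𝓞 F) : F) = (1 / z) ^ 2 * β := by
      have e1 : ((1 : 𝓞 F) : F) = 1 := map_one (algebraMap (𝓞 F) F)
      rw [← h5, e1]
      field_simp
    have h6 := mem_of_sq hβ h4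
    exact v.isPrime.ne_top ((Ideal.eq_top_iff_one _).2 h6)
  have hgs : g s = -s := (hpm g).resolve_left hg
  have hfin : FiniteDimensional F F⟮s⟯ :=
    IntermediateField.adjoin.finiteDimensional (Algebra.IsIntegral.isIntegral s)
  have hfinQ : FiniteDimensional ℚ F⟮s⟯ := Module.Finite.trans F _
  have hNF : NumberField F⟮s⟯ := { }
  let i : F⟮s⟯ →ₐ[F] Fb F := F⟮s⟯.val
  let j : F⟮s⟯ →ₐ[F] Fb F := (g : Fb F →ₐ[F] Fb F).comp F⟮s⟯.val
  have hQp := hQ.isPrime
  obtain ⟨τ, hτ, hτP⟩ := Pool.Agent.Q92.PA.exists_inert (K := F) hQ i j (by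
    intro a
    obtain ⟨x, y, hxy⟩ := rep s (β : F) hs ((a : F⟮s⟯) : Fb F) (a : F⟮s⟯).2
    have hd : ((oi i a - oi j a : 𝓞 (Fb F)) : Fb F) = algebraMap F (Fb F) (2 * y) * s := by
      have e1 : ((oi i a - oi j a : 𝓞 (Fb F)) : Fb F) = (oi i a : Fb F) - (oi j a : Fb F) := rfl
      have e2 : (oi i a : Fb F) = ((a : F⟮s⟯) : Fb F) := rfl
      have e3 : (oi j a : Fb F) = g ((a : F⟮s⟯) : Fb F) := rfl
      rw [e1, e2, e3, hxy, map_add, map_mul, AlgEquiv.commutes, AlgEquiv.commutes, hgs, map_mul,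
        map_ofNat]
      ring
    set d := oi i a - oi j a with hdd
    have hd2 : ((d ^ 2 : 𝓞 (Fb F)) : Fb F) = algebraMap F (Fb F) ((2 * y) ^ 2 * β) := by
      have e1 : ((d ^ 2 : 𝓞 (Fb F)) : Fb F) = (d : Fb F) ^ 2 := rfl
      rw [e1, hd, mul_pow, hs, map_mul (algebraMap F (Fb F)) ((2 * y) ^ 2) (β : F), map_pow]
    have h3 : IsIntegral ℤ ((2 * y) ^ 2 * (β : F)) := by
      have h5 : IsIntegral ℤ (algebraMap F (Fb F) ((2 * y) ^ 2 * β)) := by
        rw [← hd2]
        exact (d ^ 2).2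
      exact (isIntegral_algebraMap_iff (algebraMap F (Fb F)).injective).1 h5
    obtain ⟨m, hm⟩ : ∃ m : 𝓞 F, (m : F) = (2 * y) ^ 2 * (β : F) := ⟨⟨_, h3⟩, rfl⟩
    have hmv := mem_of_sq hβ hm
    have h4 : d ^ 2 = algebraMap (𝓞 F) (𝓞 (Fb F)) m := by
      apply RingOfIntegers.ext
      rw [hd2, ← hm]
      rfl
    have h5 : d ^ 2 ∈ Q := by
      rw [h4]
      rw [← hQv] at hmv
      exact hmv
    exact hQp.mem_of_pow_mem _ h5)
  refine ⟨τ, hτP, ?_⟩
  have h3 := DFunLike.congr_fun hτ (⟨s, IntermediateField.mem_adjoin_simple_self F s⟩ : F⟮s⟯)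
  exact h3.trans hgs

section fix
variable {v : HeightOneSpectrum (𝓞 F)} (hv6 : (6 : 𝓞 F) ∉ v.asIdeal) {Q : Ideal (𝓞 (Fb F))} (hQ : Q.IsMaximal)
  (hQv : Q.comap (algebraMap (𝓞 F) (𝓞 (Fb F))) = v.asIdeal) {τ : Gal(Fb F/F)}
  (hτ : ∀ x : 𝓞 (Fb F), τ • x - x ∈ Q)

include hv6 hQ hQv

theorem six_notMem : (6 : 𝓞 (Fb F)) ∉ Q := by
  intro h
  apply hv6
  rw [← hQv, Ideal.mem_comap, map_ofNat]
  exact h

theorem two_notMem : (2 : 𝓞 (Fb F)) ∉ Q := by
  intro h
  apply six_notMem hv6 hQ hQv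
  have : (6 : 𝓞 (Fb F)) = 3 * 2 := by norm_num
  rw [this]
  exact Q.mul_mem_left _ h

include hτ

/-- square roots of units at `v` -/
theorem fix_sqrt {u : 𝓞 F} (hu : u ∉ v.asIdeal) {t : Fb F} (ht : t ^ 2 = algebraMap F (Fb F) u) : τ t = t := by
  have hQp := hQ.isPrime
  obtain ⟨t', rfl⟩ := exists_int' two_ne_zero ht
  have h3 : (τ (t' : Fb F) - t') * (τ (t' : Fb F) + t') = 0 := by
    have h4 : τ (t' : Fb F) ^ 2 = (t' : Fb F) ^ 2 := by rw [← map_pow, ht, AlgEquiv.commutes]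
    linear_combination h4
  rcases mul_eq_zero.1 h3 with h4 | h4
  · exact sub_eq_zero.1 h4
  · exfalso
    have h5 : τ • t' = -t' := by
      apply RingOfIntegers.ext
      exact eq_neg_of_add_eq_zero_left h4
    have h6 := hτ t'
    rw [h5] at h6
    have h7 : (2 : 𝓞 (Fb F)) * t' ∈ Q := by
      have : (2 : 𝓞 (Fb F)) * t' = -(-t' - t') := by ring
      rw [this]
      exact Q.neg_mem h6
    rcases hQp.mem_or_mem h7 with h8 | h8
    · exact two_notMem hv6 hQ hQv h8
    · apply hu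
      rw [← hQv, Ideal.mem_comap]
      have h9 : algebraMap (𝓞 F) (𝓞 (Fb F)) u = t' ^ 2 := by
        apply RingOfIntegers.ext
        exact ht.symm
      rw [h9]
      exact Q.pow_mem_of_mem h8 _ two_pos

/-- roots of unity of order a power of two -/
theorem fix_root (m : ℕ) {z : Fb F} (hz : z ^ 2 ^ m = 1) : τ z = z := by
  have hQp := hQ.isPrime
  have key : ∀ (m : ℕ) (η : 𝓞 (Fb F)), η ^ 2 ^ m = 1 → η - 1 ∈ Q → η = 1 := by
    intro m
    induction m with
    | zero => intro η h _; simpa using h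
    | succ m ih =>
      intro η h1 h2
      have h3 : η ^ 2 = 1 := by
        apply ih
        · rw [← pow_mul, ← pow_succ']
          exact h1
        · have : η ^ 2 - 1 = (η + 1) * (η - 1) := by ring
          rw [this]
          exact Q.mul_mem_left _ h2
      have h4 : (η - 1) * (η + 1) = 0 := by linear_combination h3
      rcases mul_eq_zero.1 h4 with h5 | h5
      · exact sub_eq_zero.1 h5
      · exfalso
        apply two_notMem hv6 hQ hQv
        have h6 : (2 : 𝓞 (Fb F)) = -(η - 1) := by linear_combination h5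
        rw [h6]
        exact Q.neg_mem h2
  obtain ⟨z', rfl⟩ := exists_int' (F := F) (a := 1) (n := 2 ^ m) (by positivity) (x := z) (by
    have e1 : ((1 : 𝓞 F) : F) = 1 := map_one (algebraMap (𝓞 F) F)
    rw [hz, e1, map_one])
  have hz1 : z' ^ 2 ^ m = 1 := by
    apply RingOfIntegers.ext
    have e1 : ((z' ^ 2 ^ m : 𝓞 (Fb F)) : Fb F) = (z' : Fb F) ^ 2 ^ m := rfl
    have e2 : ((1 : 𝓞 (Fb F)) : Fb F) = 1 := rfl
    rw [e1, e2, hz]
  have hu : IsUnit z' := IsUnit.of_pow_eq_one hz1 (by positivity)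
  obtain ⟨w, hw⟩ := hu.exists_right_inv
  have h1 : τ • z' * w = 1 := by
    apply key m
    · rw [mul_pow]
      have h2 : (τ • z') ^ 2 ^ m = 1 := by
        rw [← smul_pow', hz1, smul_one]
      have h3 : w ^ 2 ^ m = 1 := by
        have := congrArg (· ^ 2 ^ m) hw
        simp only [mul_pow, hz1, one_mul, one_pow] at this
        exact this
      rw [h2, h3, one_mul]
    · have h2 : τ • z' * w - 1 = (τ • z' - z') * w := by
        rw [sub_mul, hw]
      rw [h2]
      exact Q.mul_mem_right _ (hτ z')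
  have h2 : τ • z' = z' := by
    have h3 : τ • z' * w * z' = z' := by rw [h1, one_mul]
    rw [mul_assoc, mul_comm w z', hw, mul_one] at h3
    exact h3
  exact congrArg (fun y : 𝓞 (Fb F) => (y : Fb F)) h2

/-- cube roots of two -/
theorem fix_cube {x : Fb F} (hx : x ^ 3 = 2) : τ x = x := by
  have hQp := hQ.isPrime
  obtain ⟨x', rfl⟩ := exists_int' (F := F) (a := 2) (n := 3) (by norm_num) (x := x) (by
    have e1 : ((2 : 𝓞 F) : F) = 2 := map_ofNat (algebraMap (𝓞 F) F) 2
    rw [hx, e1, map_ofNat])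
  have hx3 : x' ^ 3 = 2 := by
    apply RingOfIntegers.ext
    have e1 : ((x' ^ 3 : 𝓞 (Fb F)) : Fb F) = (x' : Fb F) ^ 3 := rfl
    have e2 : ((2 : 𝓞 (Fb F)) : Fb F) = 2 := map_ofNat (algebraMap (𝓞 (Fb F)) (Fb F)) 2
    rw [e1, e2, hx]
  by_contra hne
  have h1 : (τ • x') ^ 3 = 2 := by
    have h2 : (τ • x') ^ 3 = τ • (x' ^ 3) := (smul_pow' τ x' 3).symm
    rw [h2, hx3]
    exact map_ofNat (MulSemiringAction.toRingHom Gal(Fb F/F) (𝓞 (Fb F)) τ) 2
  have hne' : τ • x' ≠ x' := fun h => hne (congrArg (fun y : 𝓞 (Fb F) => (y : Fb F)) h)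
  have h2 : (τ • x' - x') * ((τ • x') ^ 2 + τ • x' * x' + x' ^ 2) = 0 := by
    linear_combination h1 - hx3
  have h3 := (mul_eq_zero.1 h2).resolve_left (sub_ne_zero.2 hne')
  apply six_notMem hv6 hQ hQv
  set y := τ • x' with hy
  have h4 := hτ x'
  have h5 : (6 : 𝓞 (Fb F)) = (y - x') * (-(y + 2 * x') * x') := by
    linear_combination x' * h3 - 3 * hx3
  rw [h5]
  exact Q.mul_mem_right _ h4

end fix

/-- an inertia element at `v` -/
theorem exists_tau' (B : Finset (HeightOneSpectrum (𝓞 F))) (hB : ∀ v ∈ B, (6 : 𝓞 F) ∉ v.asIdeal)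
    (β : HeightOneSpectrum (𝓞 F) → 𝓞 F) (hβ : ∀ v ∈ B, v.asIdeal = Ideal.span {β v})
    (s : HeightOneSpectrum (𝓞 F) → Fb F) (hs : ∀ v, (s v) ^ 2 = algebraMap F (Fb F) (β v)) (m : ℕ)
    (v : HeightOneSpectrum (𝓞 F)) (hv : v ∈ B) :
    ∃ τ : Gal(Fb F/F), τ (s v) = -s v ∧ (∀ u ∈ B, u ≠ v → τ (s u) = s u) ∧
      (∀ z : Fb F, z ^ 2 ^ m = 1 → τ z = z) ∧ ∀ x : Fb F, x ^ 3 = 2 → τ x = x := by
  have hvm := v.isMaximal
  have hint : Algebra.IsIntegral (𝓞 F) (𝓞 (Fb F)) := by
    refine ⟨fun x => ?_⟩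
    have h1 : IsIntegral ℤ x := by
      have := x.2
      exact (isIntegral_algebraMap_iff (RingOfIntegers.coe_injective)).1 this
    exact h1.tower_top
  obtain ⟨Q, hQ, hQv⟩ := Ideal.exists_ideal_over_maximal_of_isIntegral (S := 𝓞 (Fb F)) v.asIdeal (by
    rw [(RingHom.injective_iff_ker_eq_bot _).1]
    · exact bot_le
    · intro x y hxy
      have h1 := congrArg (fun z : 𝓞 (Fb F) => (z : Fb F)) hxy
      exact RingOfIntegers.ext ((algebraMap F (Fb F)).injective h1))
  obtain ⟨τ, hτ, hτs⟩ := exists_tau v (β v) (hβ v hv) (s v) (hs v) Q hQ hQv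
  refine ⟨τ, hτs, ?_, ?_, ?_⟩
  · intro u hu huv
    refine fix_sqrt (hB v hv) hQ hQv hτ (u := β u) ?_ (hs u)
    intro h
    apply huv
    apply HeightOneSpectrum.ext
    have h1 : u.asIdeal ≤ v.asIdeal := by
      rw [hβ u hu]
      exact (Ideal.span_singleton_le_iff_mem _).2 h
    exact u.isMaximal.eq_of_le v.isPrime.ne_top h1
  · intro z hz
    exact fix_root (hB v hv) hQ hQv hτ m hz
  · intro x hx
    exact fix_cube (hB v hv) hQ hQv hτ hx

end

/-- **The Galois element.** -/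
theorem exists_galB (F : Type) [Field F] [NumberField F] [IsCyclotomicExtension {3} ℚ F]
    (B : Finset (HeightOneSpectrum (𝓞 F))) (hB : ∀ v ∈ B, (6 : 𝓞 F) ∉ v.asIdeal)
    (β : HeightOneSpectrum (𝓞 F) → 𝓞 F) (hβ : ∀ v ∈ B, v.asIdeal = Ideal.span {β v}) (m : ℕ) :
    ∃ (M : Type) (_ : Field M) (_ : NumberField M) (_ : Algebra F M) (_ : IsGalois F M)
      (g : M ≃ₐ[F] M) (ζ r : M) (s : HeightOneSpectrum (𝓞 F) → M), IsPrimitiveRoot ζ (2 ^ m) ∧ g ζ = ζ ∧
        r ^ 3 = 2 ∧ g r ≠ r ∧ ∀ v ∈ B, (s v) ^ 2 = algebraMap F M (β v) ∧ g (s v) = -(s v) := by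
  classical
  obtain ⟨M', _, _, _, _, g', ζ', r', -, hζ', hgζ', hr', hgr', -, -⟩ :=
    Pool.Agent.H81.EX2.exists_gal F (q := 5) (by norm_num) (by norm_num) (by norm_num) m
  let e : M' →ₐ[F] Fb F := IsAlgClosed.lift
  obtain ⟨g0, hg0⟩ := Pool.Agent.Q5.VL.exists_conj (K := F) e (e.comp (g' : M' →ₐ[F] M'))
  have hg0' : ∀ x, g0 (e x) = e (g' x) := fun x => DFunLike.congr_fun hg0 x
  have hsq : ∀ v, ∃ s : Fb F, s ^ 2 = algebraMap F (Fb F) (β v) := fun v =>
    IsAlgClosed.exists_pow_nat_eq _ two_pos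
  choose s hs using hsq
  have hpm : ∀ v, ∀ g : Gal(Fb F/F), g (s v) = s v ∨ g (s v) = -s v := by
    intro v g
    have h3 : (g (s v) - s v) * (g (s v) + s v) = 0 := by
      have h4 : g (s v) ^ 2 = s v ^ 2 := by rw [← map_pow, hs, AlgEquiv.commutes]
      linear_combination h4
    rcases mul_eq_zero.1 h3 with h4 | h4
    · exact Or.inl (sub_eq_zero.1 h4)
    · exact Or.inr (eq_neg_of_add_eq_zero_left h4)
  -- sign changes
  have hT : ∀ T : Finset (HeightOneSpectrum (𝓞 F)), T ⊆ B → ∃ h : Gal(Fb F/F),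
      (∀ v ∈ B, h (s v) = if v ∈ T then -s v else s v) ∧
      (∀ z : Fb F, z ^ 2 ^ m = 1 → h z = z) ∧ ∀ x : Fb F, x ^ 3 = 2 → h x = x := by
    intro T
    induction T using Finset.induction_on with
    | empty =>
      intro _
      exact ⟨1, fun v _ => by simp, fun _ _ => rfl, fun _ _ => rfl⟩
    | insert a T ha ih =>
      intro hTB
      obtain ⟨h, h1, h2, h3⟩ := ih ((Finset.subset_insert _ _).trans hTB)
      have haB : a ∈ B := hTB (Finset.mem_insert_self _ _)
      obtain ⟨τ, t1, t2, t3, t4⟩ := exists_tau' B hB β hβ s hs m a haB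
      refine ⟨h * τ, ?_, ?_, ?_⟩
      · intro v hv
        change h (τ (s v)) = _
        by_cases hva : v = a
        · subst hva
          rw [t1, map_neg, h1 v hv, if_neg ha, if_pos (Finset.mem_insert_self _ _)]
        · rw [t2 v hv hva, h1 v hv]
          have : v ∈ insert a T ↔ v ∈ T := by
            rw [Finset.mem_insert]
            exact or_iff_right hva
          simp only [this]
      · intro z hz
        change h (τ z) = z
        rw [t3 z hz, h2 z hz]
      · intro x hx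
        change h (τ x) = x
        rw [t4 x hx, h3 x hx]
  obtain ⟨h, h1, h2, h3⟩ := hT (B.filter fun v => g0 (s v) = s v) (Finset.filter_subset _ _)
  let G : Gal(Fb F/F) := h * g0
  have hGz : G (e ζ') = e ζ' := by
    change h (g0 (e ζ')) = e ζ'
    rw [hg0', hgζ']
    apply h2
    rw [← map_pow, hζ'.pow_eq_one, map_one]
  have hGr : G (e r') ≠ e r' := by
    change h (g0 (e r')) ≠ e r'
    rw [hg0', h3]
    · intro h4
      exact hgr' (e.injective h4)
    · rw [← map_pow, ← map_pow, hr', map_ofNat, map_ofNat]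
  have hGs : ∀ v ∈ B, G (s v) = -s v := by
    intro v hv
    change h (g0 (s v)) = -s v
    by_cases h4 : g0 (s v) = s v
    · rw [h4, h1 v hv, if_pos (Finset.mem_filter.2 ⟨hv, h4⟩)]
    · rw [(hpm v g0).resolve_left h4, map_neg, h1 v hv, if_neg]
      intro h5
      exact h4 (Finset.mem_filter.1 h5).2
  -- the field
  let S : Set (Fb F) := insert (e ζ') (insert (e r') (s '' (B : Set (HeightOneSpectrum (𝓞 F)))))
  have hSfin : S.Finite := ((B.finite_toSet.image s).insert _).insert _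
  let E : IntermediateField F (Fb F) := IntermediateField.adjoin F S
  have hfinS : Finite S := hSfin
  have hEfin : FiniteDimensional F E :=
    IntermediateField.finiteDimensional_adjoin (fun x _ => Algebra.IsIntegral.isIntegral x)
  let M : IntermediateField F (Fb F) := IntermediateField.normalClosure F E (Fb F)
  have hMfin : FiniteDimensional F M := normalClosure.is_finiteDimensional F E (Fb F)
  have hMgal : IsGalois F M := IsGalois.normalClosure F E (Fb F)
  have hEM : E ≤ M := IntermediateField.le_normalClosure E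
  have hfinQ : FiniteDimensional ℚ M := Module.Finite.trans F _
  have hNF : NumberField M := { }
  have hmemM : ∀ x ∈ S, x ∈ M := fun x hx => hEM (IntermediateField.subset_adjoin F S hx)
  have hζM : e ζ' ∈ M := hmemM _ (Set.mem_insert _ _)
  have hrM : e r' ∈ M := hmemM _ (Set.mem_insert_of_mem _ (Set.mem_insert _ _))
  have hsM : ∀ v ∈ B, s v ∈ M := fun v hv => hmemM _ (Set.mem_insert_of_mem _ (Set.mem_insert_of_mem _
    ⟨v, hv, rfl⟩))
  let g : M ≃ₐ[F] M := G.restrictNormal M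
  have hg : ∀ x : M, ((g x : M) : Fb F) = G x := fun x => G.restrictNormal_commutes M x
  refine ⟨M, inferInstance, hNF, inferInstance, hMgal, g, ⟨e ζ', hζM⟩, ⟨e r', hrM⟩,
    fun v => if hv : v ∈ B then ⟨s v, hsM v hv⟩ else 0, ?_, ?_, ?_, ?_, ?_⟩
  · refine IsPrimitiveRoot.of_map_of_injective (f := algebraMap M (Fb F)) ?_ (algebraMap M (Fb F)).injective
    change IsPrimitiveRoot (e ζ') (2 ^ m)
    exact hζ'.map_of_injective e.injective
  · apply Subtype.ext
    rw [hg]
    exact hGz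
  · apply Subtype.ext
    change (e r') ^ 3 = 2
    rw [← map_pow, hr', map_ofNat]
  · intro h4
    apply hGr
    have h5 := congrArg (fun x : M => (x : Fb F)) h4
    simp only [hg] at h5
    exact h5
  · intro v hv
    simp only [dif_pos hv]
    constructor
    · apply Subtype.ext
      change (s v) ^ 2 = _
      rw [hs]
      rfl
    · apply Subtype.ext
      rw [hg]
      exact hGs v hv

end Pool.Agent.H40.IN
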