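import Pool.Agent.H40.IN.Gal
import Pool.Agent.H81.EX2.Prm

/-! # The ramified prime of the towers, finitely many inert primes -/

set_option autoImplicit false
set_option linter.unusedSectionVars false
set_option linter.deprecated false

namespace Pool.Agent.H40.IN

open NumberField IsDedekindDomain Pool.Agent.Q92.AR Pool.Agent.H81.EX2

/-- **The prime.** -/
theorem exists_primeB (F : Type) [Field F] [NumberField F] [IsCyclotomicExtension {3} ℚ F]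
    (B : Finset (HeightOneSpectrum (𝓞 F))) (hB : ∀ v ∈ B, (6 : 𝓞 F) ∉ v.asIdeal)
    (β : HeightOneSpectrum (𝓞 F) → 𝓞 F) (hβ : ∀ v ∈ B, v.asIdeal = Ideal.span {β v}) (n N : ℕ) :
    ∃ v : HeightOneSpectrum (𝓞 F), N < Ideal.absNorm v.asIdeal ∧ 2 ^ n ∣ Ideal.absNorm v.asIdeal - 1 ∧
      (∀ y : 𝓞 F, y ^ 3 - 2 ∉ v.asIdeal) ∧ (∀ u ∈ B, ∀ y : 𝓞 F, y ^ 2 - β u ∉ v.asIdeal) ∧
      (6 : 𝓞 F) ∉ v.asIdeal := by
  classical
  obtain ⟨M, _, _, _, _, g, ζ, r, sq, hζ, hgζ, hr, hgr, hsq⟩ := exists_galB F B hB β hβ n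
  have hβ0 : ∀ u ∈ B, β u ≠ 0 := by
    intro u hu h
    apply u.ne_bot
    rw [hβ u hu, h]
    simp
  obtain ⟨c0, hc0⟩ : ∃ c0 : 𝓞 F, c0 = 6 * ∏ u ∈ B, β u := ⟨_, rfl⟩
  have h6q : c0 ≠ 0 := by
    rw [hc0]
    exact mul_ne_zero (by norm_num) (Finset.prod_ne_zero_iff.2 hβ0)
  have hfin : ({v : HeightOneSpectrum (𝓞 F) | Ideal.absNorm v.asIdeal ≤ N} ∪
      {v : HeightOneSpectrum (𝓞 F) | c0 ∈ v.asIdeal}).Finite := by
    refine (finite_norm_le F N).union ?_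
    have h0 : Ideal.span {c0} ≠ 0 := fun h => h6q (Ideal.span_singleton_eq_bot.1 h)
    refine (Ideal.finite_factors h0).subset fun v hv => Ideal.dvd_span_singleton.2 hv
  obtain ⟨v, hv, hvU, P, hPm, hPv, hP⟩ := Pool.Agent.Q14.AR.cheb F M g _ hfin
  have hPp := hPm.isPrime
  have hvB : N < Ideal.absNorm v.asIdeal := not_le.1 fun h => hv (Or.inl h)
  have hv0 : c0 ∉ v.asIdeal := fun h => hv (Or.inr h)
  have hv6 : (6 : 𝓞 F) ∉ v.asIdeal := by
    intro h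
    apply hv0
    rw [hc0]
    exact v.asIdeal.mul_mem_right _ h
  have hvβ : ∀ u ∈ B, β u ∉ v.asIdeal := by
    intro u hu h
    apply hv0
    rw [hc0]
    exact v.asIdeal.mul_mem_left _ (v.asIdeal.mem_of_dvd (Finset.dvd_prod_of_mem β hu) h)
  have hPF : ∀ x : 𝓞 F, algebraMap (𝓞 F) (𝓞 M) x ∈ P ↔ x ∈ v.asIdeal := by
    intro x
    rw [← hPv, Ideal.mem_comap]
  have hP6 : (6 : 𝓞 M) ∉ P := by
    intro h
    apply hv6
    rw [← hPF, map_ofNat]
    exact h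
  set Nv : ℕ := Ideal.absNorm v.asIdeal with hNv
  -- the Frobenius congruence
  have hfr : ∀ (x y : 𝓞 M), (y : M) = g x → y - x ^ Nv ∈ P := by
    intro x y hxy
    obtain ⟨z, hz, hz2⟩ := hP x
    have h1 : y - x ^ Nv = z := by
      apply RingOfIntegers.ext
      rw [hz2, ← hxy]
      rfl
    rw [h1]
    exact hz
  have hfermat : ∀ x : 𝓞 F, x ^ Nv - x ∈ v.asIdeal := by
    intro x
    have hfin : Finite (𝓞 F ⧸ v.asIdeal) := Ideal.finiteQuotientOfFreeOfNeBot _ v.ne_bot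
    let _ : Fintype (𝓞 F ⧸ v.asIdeal) := Fintype.ofFinite _
    have hvm := v.isMaximal
    let _ : Field (𝓞 F ⧸ v.asIdeal) := Ideal.Quotient.field v.asIdeal
    rw [← Ideal.Quotient.eq, map_pow]
    have h1 : Nv = Fintype.card (𝓞 F ⧸ v.asIdeal) := by
      rw [hNv, Ideal.absNorm_apply, Submodule.cardQuot_apply, Nat.card_eq_fintype_card]
    rw [h1]
    exact FiniteField.pow_card _
  have hfermatP : ∀ x : 𝓞 F, (algebraMap (𝓞 F) (𝓞 M) x) ^ Nv - algebraMap (𝓞 F) (𝓞 M) x ∈ P := by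
    intro x
    rw [← map_pow, ← map_sub, hPF]
    exact hfermat x
  refine ⟨v, hvB, ?_, ?_, ?_, hv6⟩
  · -- roots of unity
    have hζi : IsIntegral ℤ ζ := (hζ.isIntegral (by positivity))
    obtain ⟨z, hz⟩ : ∃ z : 𝓞 M, (z : M) = ζ := ⟨⟨ζ, hζi⟩, rfl⟩
    have hzp : IsPrimitiveRoot z (2 ^ n) := by
      refine IsPrimitiveRoot.of_map_of_injective (f := algebraMap (𝓞 M) M) ?_
        (FaithfulSMul.algebraMap_injective (𝓞 M) M)
      change IsPrimitiveRoot (z : M) (2 ^ n)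
      rw [hz]
      exact hζ
    have h1 : z - z ^ Nv ∈ P := hfr z z (by rw [hz, hgζ])
    have h2 : z ^ Nv = z ^ (Nv - 1) * z := by
      rw [← pow_succ, Nat.sub_add_cancel (by omega)]
    by_contra hcon
    -- `z ^ (N - 1) ≠ 1` but `≡ 1`
    have h3 : (1 - z ^ (Nv - 1)) * z ∈ P := by
      have : (1 - z ^ (Nv - 1)) * z = z - z ^ Nv := by rw [h2]; ring
      rw [this]
      exact h1
    have hzu : IsUnit z := IsUnit.of_pow_eq_one hzp.pow_eq_one (by positivity)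
    have h4 : 1 - z ^ (Nv - 1) ∈ P := by
      rcases hPp.mem_or_mem h3 with h | h
      · exact h
      · exact absurd (Ideal.eq_top_of_isUnit_mem _ h hzu) hPp.ne_top
    -- `2 ^ n = ∏ (1 - z ^ i)`
    obtain ⟨t, ht⟩ : ∃ t : ℕ, 2 ^ n = t + 1 :=
      ⟨2 ^ n - 1, (Nat.sub_add_cancel (Nat.one_le_two_pow)).symm⟩
    have h5 : ∏ i ∈ Finset.range t, (1 - z ^ (i + 1)) = (t : 𝓞 M) + 1 :=
      (ht ▸ hzp).prod_one_sub_pow_eq_order
    have h6 : (Nv - 1) % 2 ^ n ≠ 0 := fun h => hcon (Nat.dvd_of_mod_eq_zero h)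
    have h7 : (Nv - 1) % 2 ^ n < 2 ^ n := Nat.mod_lt _ (by positivity)
    have h8 : z ^ (Nv - 1) = z ^ ((Nv - 1) % 2 ^ n - 1 + 1) := by
      rw [Nat.sub_add_cancel (Nat.one_le_iff_ne_zero.2 h6)]
      exact pow_eq_pow_mod _ hzp.pow_eq_one
    have h9 : (1 - z ^ (Nv - 1)) ∣ (t : 𝓞 M) + 1 := by
      rw [← h5, h8]
      exact Finset.dvd_prod_of_mem (fun i => 1 - z ^ (i + 1)) (Finset.mem_range.2 (by omega))
    have h10 : ((2 ^ n : ℕ) : 𝓞 M) ∈ P := by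
      rw [ht, Nat.cast_add, Nat.cast_one]
      exact P.mem_of_dvd h9 h4
    rw [Nat.cast_pow] at h10
    have h11 := hPp.mem_of_pow_mem _ h10
    apply hP6
    have h12 : (6 : 𝓞 M) = ((2 : ℕ) : 𝓞 M) * 3 := by norm_num
    rw [h12]
    exact P.mul_mem_right _ h11
  · intro y hy
    have hri : IsIntegral ℤ r := by
      refine IsIntegral.of_pow (n := 3) (by norm_num) ?_
      rw [hr]
      simpa using (isIntegral_algebraMap (R := ℤ) (A := M) (x := 2))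
    obtain ⟨R, hR⟩ : ∃ R : 𝓞 M, (R : M) = r := ⟨⟨r, hri⟩, rfl⟩
    have hgri : IsIntegral ℤ (g r) := hri.map g
    obtain ⟨R', hR'⟩ : ∃ R' : 𝓞 M, (R' : M) = g r := ⟨⟨g r, hgri⟩, rfl⟩
    have hR3 : R ^ 3 = 2 := by
      apply RingOfIntegers.ext
      have h1 : ((R ^ 3 : 𝓞 M) : M) = r ^ 3 := by rw [← hR]; rfl
      rw [h1, hr]
      exact (map_ofNat (algebraMap (𝓞 M) M) 2).symm
    have hR3' : R' ^ 3 = 2 := by
      apply RingOfIntegers.ext
      have h1 : ((R' ^ 3 : 𝓞 M) : M) = (g r) ^ 3 := by rw [← hR']; rfl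
      rw [h1, ← map_pow, hr, map_ofNat]
      exact (map_ofNat (algebraMap (𝓞 M) M) 2).symm
    have hne : R' ≠ R := by
      intro h
      apply hgr
      rw [← hR', h, hR]
    -- a cube root of unity in `F`
    obtain ⟨w0, hw0⟩ := IsCyclotomicExtension.exists_isPrimitiveRoot ℚ F
      (Set.mem_singleton 3) (by norm_num)
    obtain ⟨w, hw⟩ : ∃ w : 𝓞 F, (w : F) = w0 := ⟨⟨w0, hw0.isIntegral (by norm_num)⟩, rfl⟩
    have hw2 : w ^ 2 + w + 1 = 0 := by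
      apply RingOfIntegers.ext
      have h1 : ((w ^ 2 + w + 1 : 𝓞 F) : F) = w0 ^ 2 + w0 + 1 := by rw [← hw]; rfl
      rw [h1]
      have h2 : (w0 - 1) * (w0 ^ 2 + w0 + 1) = 0 := by
        have := hw0.pow_eq_one
        linear_combination this
      exact (mul_eq_zero.1 h2).resolve_left (sub_ne_zero.2 (hw0.ne_one (by norm_num)))
    -- `R ≡ y'`
    obtain ⟨y', hy'⟩ : ∃ y' : 𝓞 F, R - algebraMap (𝓞 F) (𝓞 M) y' ∈ P := by
      have h1 : algebraMap (𝓞 F) (𝓞 M) (y ^ 3 - 2) ∈ P := (hPF _).2 hy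
      rw [map_sub, map_pow, map_ofNat] at h1
      have hw3 := congrArg (algebraMap (𝓞 F) (𝓞 M)) hw2
      rw [map_add, map_add, map_pow, map_one, map_zero] at hw3
      have h2 : (R - algebraMap (𝓞 F) (𝓞 M) y) * ((R - algebraMap (𝓞 F) (𝓞 M) (w * y)) *
          (R - algebraMap (𝓞 F) (𝓞 M) (w ^ 2 * y))) ∈ P := by
        have h3 : (R - algebraMap (𝓞 F) (𝓞 M) y) * ((R - algebraMap (𝓞 F) (𝓞 M) (w * y)) *
            (R - algebraMap (𝓞 F) (𝓞 M) (w ^ 2 * y))) =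
            -((algebraMap (𝓞 F) (𝓞 M) y) ^ 3 - 2) := by
          rw [map_mul, map_mul, map_pow]
          generalize algebraMap (𝓞 F) (𝓞 M) w = W at hw3 ⊢
          generalize algebraMap (𝓞 F) (𝓞 M) y = Y
          have hW3 : W ^ 3 = 1 := by linear_combination (W - 1) * hw3
          linear_combination hR3 - (R ^ 2 * Y - R * Y ^ 2 * W) * hw3 - Y ^ 3 * hW3
        rw [h3]
        exact P.neg_mem h1
      rcases hPp.mem_or_mem h2 with h | h
      · exact ⟨y, h⟩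
      · rcases hPp.mem_or_mem h with h | h
        · exact ⟨_, h⟩
        · exact ⟨_, h⟩
    have h1 : R ^ Nv - algebraMap (𝓞 F) (𝓞 M) y' ^ Nv ∈ P := P.mem_of_dvd (sub_dvd_pow_sub_pow _ _ _) hy'
    have h2 := hfermatP y'
    have h3 : R' - R ^ Nv ∈ P := hfr R R' (by rw [hR', hR])
    have h4 : R' - R ∈ P := by
      have h5 := P.sub_mem (P.add_mem (P.add_mem h3 h1) h2) hy'
      have h6 : R' - R ^ Nv + (R ^ Nv - algebraMap (𝓞 F) (𝓞 M) y' ^ Nv) +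
        ((algebraMap (𝓞 F) (𝓞 M) y') ^ Nv - algebraMap (𝓞 F) (𝓞 M) y') -
        (R - algebraMap (𝓞 F) (𝓞 M) y') = R' - R := by ring
      rwa [h6] at h5
    have h5 : R' ^ 2 + R' * R + R ^ 2 = 0 := by
      have h6 : (R' - R) * (R' ^ 2 + R' * R + R ^ 2) = 0 := by linear_combination hR3' - hR3
      exact (mul_eq_zero.1 h6).resolve_left (sub_ne_zero.2 hne)
    apply hP6
    have h6 : (6 : 𝓞 M) = (R' - R) * (-(R' + 2 * R) * R) := by
      linear_combination R * h5 - 3 * hR3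
    rw [h6]
    exact P.mul_mem_right _ h4
  · intro u hu y hy
    obtain ⟨hs, hgs⟩ := hsq u hu
    set s := sq u with hsdef
    have hsi : IsIntegral ℤ s := by
      refine IsIntegral.of_pow (n := 2) (by norm_num) ?_
      rw [hs]
      exact (β u).2.map (algebraMap F M).toIntAlgHom
    obtain ⟨S, hS⟩ : ∃ S : 𝓞 M, (S : M) = s := ⟨⟨s, hsi⟩, rfl⟩
    have hS2 : S ^ 2 = algebraMap (𝓞 F) (𝓞 M) (β u) := by
      apply RingOfIntegers.ext
      have h1 : ((S ^ 2 : 𝓞 M) : M) = s ^ 2 := by rw [← hS]; rfl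
      rw [h1, hs]
      rfl
    obtain ⟨y', hy'⟩ : ∃ y' : 𝓞 F, S - algebraMap (𝓞 F) (𝓞 M) y' ∈ P := by
      have h1 : algebraMap (𝓞 F) (𝓞 M) (y ^ 2 - β u) ∈ P := (hPF _).2 hy
      rw [map_sub, map_pow] at h1
      have h2 : (S - algebraMap (𝓞 F) (𝓞 M) y) * (S - algebraMap (𝓞 F) (𝓞 M) (-y)) ∈ P := by
        have h3 : (S - algebraMap (𝓞 F) (𝓞 M) y) * (S - algebraMap (𝓞 F) (𝓞 M) (-y)) =
            -((algebraMap (𝓞 F) (𝓞 M) y) ^ 2 - algebraMap (𝓞 F) (𝓞 M) (β u)) := by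
          rw [map_neg]
          linear_combination hS2
        rw [h3]
        exact P.neg_mem h1
      rcases hPp.mem_or_mem h2 with h | h
      · exact ⟨_, h⟩
      · exact ⟨_, h⟩
    have h1 : S ^ Nv - algebraMap (𝓞 F) (𝓞 M) y' ^ Nv ∈ P := P.mem_of_dvd (sub_dvd_pow_sub_pow _ _ _) hy'
    have h2 := hfermatP y'
    have h3 : -S - S ^ Nv ∈ P := hfr S (-S) (by rw [hS, hgs, ← hS]; rfl)
    have h4 : -(2 * S) ∈ P := by
      have h5 := P.sub_mem (P.add_mem (P.add_mem h3 h1) h2) hy'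
      have h6 : -S - S ^ Nv + (S ^ Nv - algebraMap (𝓞 F) (𝓞 M) y' ^ Nv) +
        ((algebraMap (𝓞 F) (𝓞 M) y') ^ Nv - algebraMap (𝓞 F) (𝓞 M) y') -
        (S - algebraMap (𝓞 F) (𝓞 M) y') = -(2 * S) := by ring
      rwa [h6] at h5
    have h6 : (6 * algebraMap (𝓞 F) (𝓞 M) (β u) : 𝓞 M) ∈ P := by
      have h7 : (6 * algebraMap (𝓞 F) (𝓞 M) (β u) : 𝓞 M) = (-(2 * S)) * (-3 * S) := by
        linear_combination (-6) * hS2
      rw [h7]
      exact P.mul_mem_right _ h4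
    rcases hPp.mem_or_mem h6 with h7 | h7
    · exact hP6 h7
    · exact hvβ u hu ((hPF _).1 h7)

end Pool.Agent.H40.IN
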