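import Pool.Agent.H40.IN.Prm
import Pool.Agent.H81.EX2.Good
import Pool.Agent.H98.X.Stm

/-! # S_INERT: towers of `2`-power degree in which finitely many given primes are inert -/

set_option autoImplicit false
set_option linter.unusedSectionVars false
set_option linter.deprecated false

namespace Pool.Agent.H40.IN

open NumberField IsDedekindDomain Pool.Agent.Q92.AR Pool.Agent.Q20.EX Pool.Agent.Q125.AR Pool.Agent.H62.Cft
open Pool.Agent.Y696 (Art)
open Pool.Agent.H62.EX Pool.Agent.H81.EX2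

/-- **The existence of the towers**, `B` not empty. -/
theorem exists_towerB (F : Type) [Field F] [NumberField F] [IsCyclotomicExtension {3} ℚ F]
    (B : Finset (HeightOneSpectrum (𝓞 F))) (hB : ∀ v ∈ B, (6 : 𝓞 F) ∉ v.asIdeal)
    (u0 : HeightOneSpectrum (𝓞 F)) (hu0 : u0 ∈ B) {n : ℕ} (hn0 : n ≠ 0) (N : ℕ) :
    ∃ (K : Type) (_ : Field K) (_ : NumberField K) (_ : Algebra F K) (_ : IsGalois F K)
      (v : HeightOneSpectrum (𝓞 F)), IsCyclic Gal(K/F) ∧ Module.finrank F K = 2 ^ n ∧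
      N < Ideal.absNorm v.asIdeal ∧ (∀ y : 𝓞 F, y ^ 3 - 2 ∉ v.asIdeal) ∧
      (∀ w : HeightOneSpectrum (𝓞 K), w.asIdeal.under (𝓞 F) ≠ v.asIdeal →
        Algebra.IsUnramifiedAt (𝓞 F) w.asIdeal) ∧
      (∀ w : HeightOneSpectrum (𝓞 K), w.asIdeal.under (𝓞 F) = v.asIdeal →
        ∀ (g : Gal(K/F)) (x : 𝓞 K), g • x - x ∈ w.asIdeal) ∧
      ∀ u ∈ B, ∀ w : HeightOneSpectrum (𝓞 K), w.asIdeal.under (𝓞 F) = u.asIdeal →
        (∀ σ : Gal(K/F), (∀ x : 𝓞 K, σ • x - x ∈ w.asIdeal) → σ = 1) ∧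
        ∀ σ : Gal(K/F), (∀ x : 𝓞 K, σ • x - x ^ Ideal.absNorm u.asIdeal ∈ w.asIdeal) →
          ∀ τ : Gal(K/F), τ ∈ Subgroup.zpowers σ := by
  classical
  have hreal := no_real F
  have hpid := IsCyclotomicExtension.Rat.three_pid F
  choose β hβp hβ using fun v : HeightOneSpectrum (𝓞 F) => exists_gen v
  obtain ⟨v, hvB, hv2, hvc, hvs, hv6⟩ := exists_primeB F B hB β (fun v _ => hβ v) (n + 1) N
  obtain ⟨c, hc, hvc'⟩ := exists_gen v
  have hc0 : c ≠ 0 := hc.ne_zero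
  have hcv : c ∈ v.asIdeal := by
    rw [hvc']
    exact Ideal.mem_span_singleton_self c
  have hcw : ∀ w : HeightOneSpectrum (𝓞 F), c ∈ w.asIdeal → w = v := by
    intro w hw
    apply HeightOneSpectrum.ext
    rw [span_of_prime hc hw, hvc']
  have hc2 : ∀ w : HeightOneSpectrum (𝓞 F), c ∈ w.asIdeal → ((2 : ℕ) : 𝓞 F) ∉ w.asIdeal := by
    intro w hw h
    rw [hcw w hw] at h
    apply hv6
    have h6 : (6 : 𝓞 F) = ((2 : ℕ) : 𝓞 F) * 3 := by norm_num
    rw [h6]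
    exact v.asIdeal.mul_mem_right _ h
  have hcd : ∀ x : 𝓞 F, (∀ w : HeightOneSpectrum (𝓞 F), c ∈ w.asIdeal → x ∈ w.asIdeal) → c ∣ x := by
    intro x hx
    have h1 := hx v hcv
    rw [hvc'] at h1
    exact Ideal.mem_span_singleton.1 h1
  -- the residue field
  have hmax : (Ideal.span {c}).IsMaximal := by
    rw [← hvc']
    exact v.isMaximal
  let _ : Field (𝓞 F ⧸ Ideal.span {c}) := Ideal.Quotient.field _
  have hfinR : Finite (𝓞 F ⧸ Ideal.span {c}) := by
    rw [← hvc']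
    exact Ideal.finiteQuotientOfFreeOfNeBot _ v.ne_bot
  have hcardR : Nat.card (𝓞 F ⧸ Ideal.span {c})ˣ = Ideal.absNorm v.asIdeal - 1 := by
    rw [Nat.card_units, hvc', Ideal.absNorm_apply]
    rfl
  obtain ⟨χ, hχn, hχ2, hχ6⟩ := exists_chr2 (G := (𝓞 F ⧸ Ideal.span {c})ˣ) (n := n) (by
    rw [hcardR]
    exact hv2)
  have hχ : ∀ (e : (𝓞 F)ˣ) (u : (𝓞 F ⧸ Ideal.span {c})ˣ),
      (u : 𝓞 F ⧸ Ideal.span {c}) = Ideal.Quotient.mk _ (e : 𝓞 F) → χ u = 1 := by
    intro e u hu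
    apply hχ6
    apply Units.ext
    rw [Units.val_pow_eq_pow_val, hu, ← map_pow, unit_six e.isUnit, map_one, Units.val_one]
  have hβv : ∀ u ∈ B, β u ∉ v.asIdeal := by
    intro u hu h
    apply hvs u hu 0
    rw [zero_pow two_ne_zero, zero_sub]
    exact v.asIdeal.neg_mem h
  have huq : ∀ u ∈ B, ∃ uq : (𝓞 F ⧸ Ideal.span {c})ˣ,
      (uq : 𝓞 F ⧸ Ideal.span {c}) = Ideal.Quotient.mk _ (β u) ∧ orderOf (χ uq) = 2 ^ n ∧
      (∀ m : ℕ, χ uq ^ m = 1 → 2 ^ n ∣ m) := by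
    intro u hu
    obtain ⟨uq, huq⟩ := isUnit_mk (a := β u) hc0 (fun w hw => by
      rw [hcw w hw]
      exact hβv u hu)
    have hordq : ∀ m : ℕ, χ uq ^ m = 1 → 2 ^ n ∣ m := by
      refine hχ2 uq ?_
      rintro ⟨y, hy⟩
      obtain ⟨a, ha⟩ := Ideal.Quotient.mk_surjective (y : 𝓞 F ⧸ Ideal.span {c})
      apply hvs u hu a
      have h1 := congrArg Units.val hy
      rw [Units.val_pow_eq_pow_val, huq, ← ha, ← map_pow, Ideal.Quotient.eq] at h1
      rw [hvc']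
      exact h1
    exact ⟨uq, huq, Nat.dvd_antisymm (orderOf_dvd_of_pow_eq_one (hχn uq))
      (hordq _ (pow_orderOf_eq_one _)), hordq⟩
  obtain ⟨uq0, huq0, hoq0, hordq0⟩ := huq u0 hu0
  obtain ⟨K, _, _, _, _, ψ, A, hcyc, hfin, hinj, hA, hψA⟩ :=
    exists_field Nat.prime_two F hc0 hc2 hcd χ hχ hχn ⟨uq0, hoq0⟩
  have hcard : Nat.card Gal(K/F) = 2 ^ n := by rw [IsGalois.card_aut_eq_finrank, hfin]
  have hunr : ∀ w : HeightOneSpectrum (𝓞 K), w.asIdeal.under (𝓞 F) ≠ v.asIdeal →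
        Algebra.IsUnramifiedAt (𝓞 F) w.asIdeal := by
    intro w hw
    refine hA.unr w fun h => hw ?_
    have h1 : c ∈ (w.under (𝓞 F)).asIdeal := h
    have h2 := hcw _ h1
    exact congrArg HeightOneSpectrum.asIdeal h2
  refine ⟨K, inferInstance, inferInstance, inferInstance, inferInstance, v, hcyc, hfin, hvB, hvc, hunr, ?_, ?_⟩
  · intro w hw g x
    refine tot_ram Nat.prime_two hn0 hfin hc0 hA ψ (P := v) _ uq0 huq0 ?_ hcd ?_ w ?_ g x
    · intro w' hw' hne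
      exact absurd (hcw w' hw') hne
    · intro m hm
      rw [hψA] at hm
      exact hordq0 m hm
    · exact HeightOneSpectrum.ext hw
  · intro u hu w hw
    have hne : w.asIdeal.under (𝓞 F) ≠ v.asIdeal := by
      rw [hw]
      intro h
      apply hβv u hu
      rw [← h, hβ u]
      exact Ideal.mem_span_singleton_self _
    have hin : ∀ σ : Gal(K/F), (∀ x : 𝓞 K, σ • x - x ∈ w.asIdeal) → σ = 1 := fun σ hσ =>
      Pool.Agent.Y696.unr_g w (hunr w hne) hσ
    refine ⟨hin, ?_⟩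
    intro σ hσ
    obtain ⟨uq, huq1, huq2, -⟩ := huq u hu
    have hβw : algebraMap (𝓞 F) (𝓞 K) (β u) ∈ w.asIdeal := by
      have h1 : β u ∈ w.asIdeal.under (𝓞 F) := by
        rw [hw, hβ u]
        exact Ideal.mem_span_singleton_self _
      exact h1
    have hfr := hA.frob _ (hβp u) uq huq1 w hβw
    have hNu : Nat.card (𝓞 F ⧸ Ideal.span {β u}) = Ideal.absNorm u.asIdeal := by
      rw [Ideal.absNorm_apply, Submodule.cardQuot_apply, hβ u]
    rw [hNu] at hfr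
    have hσA : σ = A uq := by
      have h1 : σ * (A uq)⁻¹ = 1 := by
        apply hin
        intro x
        have h2 := w.asIdeal.sub_mem (hσ ((A uq)⁻¹ • x)) (hfr ((A uq)⁻¹ • x))
        rw [sub_sub_sub_cancel_right, smul_inv_smul, ← mul_smul] at h2
        exact h2
      exact mul_inv_eq_one.1 h1
    have h1 : Nat.card (Subgroup.zpowers (A uq)) = Nat.card Gal(K/F) := by
      rw [Nat.card_zpowers, hcard, ← orderOf_injective ψ hinj, hψA, huq2]
    have h2 := Subgroup.eq_top_of_card_eq _ h1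
    intro t
    rw [hσA, h2]
    exact Subgroup.mem_top t

/-- **S_INERT** -/
theorem s_inert : Pool.Agent.H98.X.S_INERT := by
  classical
  intro F _ _ _ B hB n N hn
  obtain ⟨v5, -, -, -, -, hv5⟩ := exists_primeB F ∅ (by simp) (fun _ => 1) (by simp) 0 0
  obtain ⟨K, _, _, _, _, v, h1, h2, h3, h4, h5, h6, h7⟩ := exists_towerB F (insert v5 B) (by
    intro v hv
    rcases Finset.mem_insert.1 hv with rfl | h
    · exact hv5
    · exact hB v h) v5 (Finset.mem_insert_self _ _) hn N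
  refine ⟨K, inferInstance, inferInstance, inferInstance, inferInstance, h1, h2, ?_, ?_, ?_⟩
  · intro w σ hσ hne α
    by_cases hw : w.asIdeal.under (𝓞 F) = v.asIdeal
    · rw [hw]
      exact h4 α
    · exact absurd (Pool.Agent.Y696.unr_g w (h5 w hw) hσ) hne
  · intro u hu w hw
    exact h7 u (Finset.mem_insert_of_mem hu) w hw
  · obtain ⟨w, hw⟩ := Pool.Agent.H62.EX.exists_above (K := K) v
    have hw' : w.asIdeal.under (𝓞 F) = v.asIdeal := congrArg HeightOneSpectrum.asIdeal hw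
    exact ⟨w, by rw [hw']; exact h3, h6 w hw'⟩

end Pool.Agent.H40.IN
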